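import Mathlib

/-!
# Complement symmetry of weighted path sums in a rectangle

We prove that `V(lam) = alpha (V(lam^c))` for all `n ≥ 2`, `1 ≤ k ≤ n - 1` and every Young
diagram `lam` contained in the `(n-k) × k` rectangle.
The 180 degree rotation `(r, c) ↦ (n - k + 1 - r, k + 1 - c)` of the rectangle sends paths to
`lam` bijectively onto paths to `lam^c`, it replaces the label `i` by `n - i`, and under it the
`j`-th weights match after applying `alpha`.
-/

open Finset MvPolynomial

namespace Pool.Agent.Results.MP_5ac669_co.ComplementSymmetry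

/-- The `(n-k) × k` rectangle of boxes `(r, c)`, `1 ≤ r ≤ n-k`, `1 ≤ c ≤ k`. -/
def rect (n k : ℕ) : Finset (ℕ × ℕ) := Finset.Icc 1 (n - k) ×ˢ Finset.Icc 1 k

/-- `μ` is (the Young diagram of) a partition contained in the rectangle. -/
def IsDiagram (n k : ℕ) (μ : Finset (ℕ × ℕ)) : Prop :=
  μ ⊆ rect n k ∧ ∀ x ∈ μ, ∀ y ∈ rect n k, y.1 ≤ x.1 → y.2 ≤ x.2 → y ∈ μ

/-- The box map `(r, c) ↦ (n-k+1-r, k+1-c)`. -/
def rot (n k : ℕ) (x : ℕ × ℕ) : ℕ × ℕ := (n - k + 1 - x.1, k + 1 - x.2)

/-- The complement partition `μ^c`. -/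
def compl (n k : ℕ) (μ : Finset (ℕ × ℕ)) : Finset (ℕ × ℕ) := (rect n k \ μ).image (rot n k)

/-- Sequences `(e_1, …, e_N)`, `N = k (n-k)`, listing every box of the rectangle exactly once
(`e_{t+1}` is the value at `t : Fin N`). -/
abbrev Listing (n k : ℕ) : Type := Fin (k * (n - k)) ≃ {x : ℕ × ℕ // x ∈ rect n k}

/-- The set of the boxes `e_1, …, e_j`. -/
def used {n k : ℕ} (S : Listing n k) (j : ℕ) : Finset (ℕ × ℕ) :=
  (univ.filter (fun t : Fin (k * (n - k)) => (t : ℕ) < j)).image (fun t => (S t : ℕ × ℕ))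

/-- `S` is a path to `μ`. -/
def IsPath {n k : ℕ} (μ : Finset (ℕ × ℕ)) (S : Listing n k) : Prop :=
  ∀ j ≤ k * (n - k), IsDiagram n k (μ \ used S j) ∧
    IsDiagram n k (μ ∪ (used S j ∩ (rect n k \ μ)))

/-- The label `r - c + k` of the box `(r, c)` (for boxes of the rectangle, `c ≤ k`). -/
def label (k : ℕ) (x : ℕ × ℕ) : ℕ := x.1 + k - x.2

/-- `m_i^{(j)}`: the number of `t ≤ j` such that `e_t` has label `i` (for `1 ≤ i ≤ n-1`), and
`m_n^{(j)} = 0`. -/
def cnt {n k : ℕ} (S : Listing n k) (j i : ℕ) : ℕ :=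
  if i < n then
    (univ.filter (fun t : Fin (k * (n - k)) => (t : ℕ) < j ∧ label k (S t) = i)).card
  else 0

/-- The field `ℂ(ℏ, a_1, …, a_n)`; `none` is the index of `ℏ` and `some i` that of
`a_{i+1}`. -/
abbrev K (n : ℕ) : Type := FractionRing (MvPolynomial (Option (Fin n)) ℂ)

/-- The variable `ℏ`. -/
noncomputable def hbar (n : ℕ) : K n :=
  algebraMap (MvPolynomial (Option (Fin n)) ℂ) (K n) (X none)

/-- The variable `a_i`, `1 ≤ i ≤ n` (and the junk value `0` for other `i`). -/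
noncomputable def a (n i : ℕ) : K n :=
  if h : 1 ≤ i ∧ i ≤ n then
    algebraMap (MvPolynomial (Option (Fin n)) ℂ) (K n) (X (some ⟨i - 1, by omega⟩))
  else 0

/-- The weight `w_j(S)`. -/
noncomputable def weight {n k : ℕ} (S : Listing n k) (j : ℕ) : K n :=
  ∑ i ∈ Finset.Icc 1 (n - 1),
    (hbar n * (cnt S j i : K n) * ((cnt S j i : K n) - (cnt S j (i + 1) : K n))
      + (cnt S j i : K n) * (a n (i + 1) - a n i))

open Classical in
/-- The weighted path sum `V(μ)`. -/
noncomputable def pathSum (n k : ℕ) (μ : Finset (ℕ × ℕ)) : K n :=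
  ∑ S ∈ (univ : Finset (Listing n k)).filter (fun S => IsPath μ S),
    ∏ j ∈ Finset.Icc 1 (k * (n - k)), 1 / weight S j

/-! ### The automorphism `alpha` -/

/-- The polynomial substitution `ℏ ↦ ℏ`, `a_i ↦ - a_{n+1-i}`. -/
noncomputable def alphaPoly (n : ℕ) :
    MvPolynomial (Option (Fin n)) ℂ →ₐ[ℂ] MvPolynomial (Option (Fin n)) ℂ :=
  MvPolynomial.aeval (fun v => Option.casesOn v (X none) (fun i => - X (some (Fin.rev i))))

lemma alphaPoly_none (n : ℕ) : alphaPoly n (X none) = X none := by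
  simp [alphaPoly]

lemma alphaPoly_some (n : ℕ) (i : Fin n) :
    alphaPoly n (X (some i)) = - X (some (Fin.rev i)) := by
  simp [alphaPoly]

lemma alphaPoly_comp (n : ℕ) : (alphaPoly n).comp (alphaPoly n) = AlgHom.id ℂ _ := by
  apply MvPolynomial.algHom_ext
  intro v
  cases v with
  | none => simp [alphaPoly_none]
  | some i => simp [alphaPoly_some]

/-- The polynomial substitution as an algebra automorphism. -/
noncomputable def alphaPolyEquiv (n : ℕ) :
    MvPolynomial (Option (Fin n)) ℂ ≃ₐ[ℂ] MvPolynomial (Option (Fin n)) ℂ :=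
  AlgEquiv.ofAlgHom (alphaPoly n) (alphaPoly n) (alphaPoly_comp n) (alphaPoly_comp n)

/-- The field automorphism `alpha`. -/
noncomputable def alpha (n : ℕ) : K n ≃ₐ[ℂ] K n :=
  IsLocalization.algEquivOfAlgEquiv (M := nonZeroDivisors (MvPolynomial (Option (Fin n)) ℂ))
    (T := nonZeroDivisors (MvPolynomial (Option (Fin n)) ℂ)) (K n) (K n) (alphaPolyEquiv n)
    (MulEquivClass.map_nonZeroDivisors (alphaPolyEquiv n))

lemma alpha_algebraMap (n : ℕ) (x : MvPolynomial (Option (Fin n)) ℂ) :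
    alpha n (algebraMap _ (K n) x) = algebraMap _ (K n) (alphaPoly n x) := by
  unfold alpha
  rw [IsLocalization.algEquivOfAlgEquiv_eq]
  rfl

lemma alpha_hbar (n : ℕ) : alpha n (hbar n) = hbar n := by
  unfold hbar
  rw [alpha_algebraMap, alphaPoly_none]

lemma alpha_a (n i : ℕ) (h1 : 1 ≤ i) (h2 : i ≤ n) :
    alpha n (a n i) = - a n (n + 1 - i) := by
  unfold a
  rw [dif_pos ⟨h1, h2⟩, dif_pos ⟨by omega, by omega⟩, alpha_algebraMap, alphaPoly_some, map_neg]
  congr 4
  ext
  simp only [Fin.val_rev]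
  omega

/-! ### The rotation -/

lemma mem_rect {n k : ℕ} {x : ℕ × ℕ} :
    x ∈ rect n k ↔ (1 ≤ x.1 ∧ x.1 ≤ n - k) ∧ (1 ≤ x.2 ∧ x.2 ≤ k) := by
  simp [rect, Finset.mem_product]

lemma rot_mem {n k : ℕ} {x : ℕ × ℕ} (hx : x ∈ rect n k) : rot n k x ∈ rect n k := by
  rw [mem_rect] at hx ⊢
  simp only [rot]
  omega

lemma rot_rot {n k : ℕ} {x : ℕ × ℕ} (hx : x ∈ rect n k) : rot n k (rot n k x) = x := by
  rw [mem_rect] at hx
  apply Prod.ext
  · simp only [rot]; omega
  · simp only [rot]; omega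

/-- The rotation as a permutation of the rectangle. -/
def rotEquiv (n k : ℕ) : {x : ℕ × ℕ // x ∈ rect n k} ≃ {x : ℕ × ℕ // x ∈ rect n k} where
  toFun x := ⟨rot n k x, rot_mem x.2⟩
  invFun x := ⟨rot n k x, rot_mem x.2⟩
  left_inv x := Subtype.ext (rot_rot x.2)
  right_inv x := Subtype.ext (rot_rot x.2)

/-- The rotated listing. -/
def rotListing {n k : ℕ} (S : Listing n k) : Listing n k := S.trans (rotEquiv n k)

lemma rotListing_apply {n k : ℕ} (S : Listing n k) (t : Fin (k * (n - k))) :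
    ((rotListing S t : {x // x ∈ rect n k}) : ℕ × ℕ) = rot n k (S t) := rfl

lemma rotListing_rotListing {n k : ℕ} (S : Listing n k) : rotListing (rotListing S) = S := by
  apply Equiv.ext
  intro t
  apply Subtype.ext
  rw [rotListing_apply, rotListing_apply, rot_rot (S t).2]

lemma used_subset {n k : ℕ} (S : Listing n k) (j : ℕ) : used S j ⊆ rect n k := by
  intro x hx
  simp only [used, mem_image, mem_filter, mem_univ, true_and] at hx
  obtain ⟨t, _, rfl⟩ := hx
  exact (S t).2

lemma mem_used_rot {n k : ℕ} (S : Listing n k) (j : ℕ) {x : ℕ × ℕ} (hx : x ∈ rect n k) :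
    x ∈ used (rotListing S) j ↔ rot n k x ∈ used S j := by
  simp only [used, mem_image, mem_filter, mem_univ, true_and]
  constructor
  · rintro ⟨t, ht, rfl⟩
    refine ⟨t, ht, ?_⟩
    rw [rotListing_apply, rot_rot (S t).2]
  · rintro ⟨t, ht, h⟩
    refine ⟨t, ht, ?_⟩
    rw [rotListing_apply, h, rot_rot hx]

lemma mem_compl {n k : ℕ} {μ : Finset (ℕ × ℕ)} {x : ℕ × ℕ} (hx : x ∈ rect n k) :
    x ∈ compl n k μ ↔ rot n k x ∉ μ := by
  simp only [compl, mem_image, mem_sdiff]
  constructor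
  · rintro ⟨y, ⟨hy, hyμ⟩, rfl⟩
    rwa [rot_rot hy]
  · intro h
    exact ⟨rot n k x, ⟨rot_mem hx, h⟩, rot_rot hx⟩

lemma compl_subset {n k : ℕ} (μ : Finset (ℕ × ℕ)) : compl n k μ ⊆ rect n k := by
  intro x hx
  simp only [compl, mem_image, mem_sdiff] at hx
  obtain ⟨y, ⟨hy, _⟩, rfl⟩ := hx
  exact rot_mem hy

lemma compl_compl {n k : ℕ} {μ : Finset (ℕ × ℕ)} (hμ : μ ⊆ rect n k) :
    compl n k (compl n k μ) = μ := by
  ext x
  constructor
  · intro hx
    have hxr := compl_subset _ hx
    rw [mem_compl hxr, mem_compl (rot_mem hxr), rot_rot hxr, not_not] at hx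
    exact hx
  · intro hx
    have hxr := hμ hx
    rw [mem_compl hxr, mem_compl (rot_mem hxr), rot_rot hxr, not_not]
    exact hx

/-- The complement of a diagram is a diagram. -/
lemma isDiagram_compl {n k : ℕ} {μ : Finset (ℕ × ℕ)} (h : IsDiagram n k μ) :
    IsDiagram n k (compl n k μ) := by
  refine ⟨compl_subset μ, ?_⟩
  intro x hx y hy h1 h2
  have hxr := compl_subset _ hx
  rw [mem_compl hxr] at hx
  rw [mem_compl hy]
  intro hyμ
  apply hx
  refine h.2 _ hyμ _ (rot_mem hxr) ?_ ?_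
  · simp only [rot]; omega
  · simp only [rot]; omega

/-- `μ^c` minus the first `j` rotated boxes is the complement of the union of `μ` with the first
`j` boxes. -/
lemma compl_union {n k : ℕ} {μ : Finset (ℕ × ℕ)} (S : Listing n k) (j : ℕ) :
    compl n k μ \ used (rotListing S) j
      = compl n k (μ ∪ (used S j ∩ (rect n k \ μ))) := by
  ext x
  by_cases hx : x ∈ rect n k
  · rw [mem_sdiff, mem_compl hx, mem_compl hx, mem_used_rot S j hx]
    simp only [mem_union, mem_inter, mem_sdiff, rot_mem hx, true_and]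
    tauto
  · constructor
    · intro h
      exact absurd (compl_subset _ (mem_sdiff.1 h).1) hx
    · intro h
      exact absurd (compl_subset _ h) hx

lemma compl_sdiff {n k : ℕ} {μ : Finset (ℕ × ℕ)} (S : Listing n k) (j : ℕ) :
    compl n k μ ∪ (used (rotListing S) j ∩ (rect n k \ compl n k μ))
      = compl n k (μ \ used S j) := by
  ext x
  by_cases hx : x ∈ rect n k
  · rw [mem_union, mem_inter, mem_sdiff, mem_compl hx, mem_compl hx, mem_used_rot S j hx]
    simp only [mem_sdiff, hx, true_and]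
    tauto
  · constructor
    · intro h
      rcases mem_union.1 h with h | h
      · exact absurd (compl_subset _ h) hx
      · exact absurd (mem_sdiff.1 (mem_inter.1 h).2).1 hx
    · intro h
      exact absurd (compl_subset _ h) hx

lemma isPath_rot {n k : ℕ} {μ : Finset (ℕ × ℕ)} {S : Listing n k} (h : IsPath μ S) :
    IsPath (compl n k μ) (rotListing S) := by
  intro j hj
  obtain ⟨h1, h2⟩ := h j hj
  constructor
  · rw [compl_union]
    exact isDiagram_compl h2
  · rw [compl_sdiff]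
    exact isDiagram_compl h1

/-! ### The weights -/

lemma label_rot {n k : ℕ} (hk : k ≤ n) {x : ℕ × ℕ} (hx : x ∈ rect n k) :
    label k (rot n k x) = n - label k x := by
  rw [mem_rect] at hx
  simp only [label, rot]
  omega

lemma label_bounds {n k : ℕ} (hk : k ≤ n) {x : ℕ × ℕ} (hx : x ∈ rect n k) :
    1 ≤ label k x ∧ label k x ≤ n - 1 := by
  rw [mem_rect] at hx
  simp only [label]
  omega

lemma cnt_zero {n k : ℕ} (hk : k ≤ n) (S : Listing n k) (j : ℕ) : cnt S j 0 = 0 := by
  unfold cnt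
  split_ifs
  · rw [Finset.card_eq_zero, Finset.filter_eq_empty_iff]
    intro t _ h
    have := (label_bounds hk (S t).2).1
    omega
  · rfl

lemma cnt_n {n k : ℕ} (S : Listing n k) (j : ℕ) : cnt S j n = 0 := by
  unfold cnt
  simp

lemma cnt_rot {n k : ℕ} (hk : k ≤ n) (S : Listing n k) (j i : ℕ) (hi : i ≤ n) :
    cnt (rotListing S) j i = cnt S j (n - i) := by
  rcases Nat.eq_zero_or_pos i with rfl | hi0
  · rw [cnt_zero hk]
    simp only [Nat.sub_zero, cnt_n]
  rcases Nat.lt_or_ge i n with hin | hin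
  · unfold cnt
    rw [if_pos hin, if_pos (by omega)]
    congr 1
    apply Finset.filter_congr
    intro t _
    rw [rotListing_apply, label_rot hk (S t).2]
    have := label_bounds hk (S t).2
    constructor
    · rintro ⟨h1, h2⟩
      exact ⟨h1, by omega⟩
    · rintro ⟨h1, h2⟩
      exact ⟨h1, by omega⟩
  · have : i = n := le_antisymm hi hin
    subst this
    rw [cnt_n, Nat.sub_self, cnt_zero hk]

/-- Symmetric form of the quadratic part. -/
lemma quad_sum {F : Type*} [Field F] (n : ℕ) (hn : 1 ≤ n) (m : ℕ → F) (hmn : m n = 0) :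
    ∑ i ∈ Finset.Icc 1 (n - 1), m i * (m i - m (i + 1))
      = ∑ i ∈ Finset.Icc 1 (n - 1), m i * m i - ∑ i ∈ Finset.Icc 1 (n - 2), m i * m (i + 1) := by
  have h1 : ∑ i ∈ Finset.Icc 1 (n - 1), m i * m (i + 1)
      = ∑ i ∈ Finset.Icc 1 (n - 2), m i * m (i + 1) := by
    rcases Nat.lt_or_ge n 2 with h | h
    · have : n = 1 := by omega
      subst this
      simp
    · obtain ⟨q, rfl⟩ : ∃ q, n = q + 2 := ⟨n - 2, by omega⟩
      have e1 : q + 2 - 1 = q + 1 := by omega
      have e2 : q + 2 - 2 = q := by omega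
      rw [e1, e2, Finset.sum_Icc_succ_top (by omega), hmn, mul_zero, add_zero]
  rw [← h1, ← Finset.sum_sub_distrib]
  apply Finset.sum_congr rfl
  intro i _
  ring

/-- Reflection of a sum. -/
lemma sum_reflect {F : Type*} [Field F] (n : ℕ) (f : ℕ → F) :
    ∑ i ∈ Finset.Icc 1 n, f (n + 1 - i) = ∑ i ∈ Finset.Icc 1 n, f i := by
  apply Finset.sum_bij' (fun i _ => n + 1 - i) (fun i _ => n + 1 - i)
  · intro i hi
    rw [Finset.mem_Icc] at hi ⊢
    omega
  · intro i hi
    rw [Finset.mem_Icc] at hi ⊢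
    omega
  · intro i hi
    rw [Finset.mem_Icc] at hi
    omega
  · intro i hi
    rw [Finset.mem_Icc] at hi
    omega
  · intro i hi
    rfl

lemma quad_reflect {F : Type*} [Field F] (n : ℕ) (hn : 1 ≤ n) (m : ℕ → F) (hmn : m n = 0)
    (hm0 : m 0 = 0) :
    ∑ i ∈ Finset.Icc 1 (n - 1), m (n - i) * (m (n - i) - m (n - (i + 1)))
      = ∑ i ∈ Finset.Icc 1 (n - 1), m i * (m i - m (i + 1)) := by
  have h := quad_sum n hn (fun i => m (n - i)) (by simpa using hm0)
  rw [h, quad_sum n hn m hmn]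
  congr 1
  · rw [← sum_reflect (n - 1) (fun i => m i * m i)]
    apply Finset.sum_congr rfl
    intro i hi
    rw [Finset.mem_Icc] at hi
    have : n - 1 + 1 - i = n - i := by omega
    rw [this]
  · rw [← sum_reflect (n - 2) (fun i => m i * m (i + 1))]
    apply Finset.sum_congr rfl
    intro i hi
    rw [Finset.mem_Icc] at hi
    have e1 : n - 2 + 1 - i = n - (i + 1) := by omega
    have e2 : n - (i + 1) + 1 = n - i := by omega
    rw [e1, e2, mul_comm]

/-- The weights match term by term. -/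
lemma alpha_weight {n k : ℕ} (hn : 2 ≤ n) (hk : k ≤ n) (S : Listing n k) (j : ℕ) :
    alpha n (weight (rotListing S) j) = weight S j := by
  unfold weight
  rw [map_sum]
  simp only [map_add, map_mul, map_sub, map_natCast, alpha_hbar]
  rw [Finset.sum_add_distrib, Finset.sum_add_distrib]
  congr 1
  · simp only [mul_assoc]
    rw [← Finset.mul_sum, ← Finset.mul_sum]
    congr 1
    rw [← quad_reflect n (by omega) (fun i => (cnt S j i : K n)) (by simp [cnt_n])
      (by simp [cnt_zero hk])]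
    apply Finset.sum_congr rfl
    intro i hi
    rw [Finset.mem_Icc] at hi
    rw [cnt_rot hk S j i (by omega), cnt_rot hk S j (i + 1) (by omega)]
  · rw [← sum_reflect (n - 1) (fun i => (cnt S j i : K n) * (a n (i + 1) - a n i))]
    apply Finset.sum_congr rfl
    intro i hi
    rw [Finset.mem_Icc] at hi
    rw [cnt_rot hk S j i (by omega), alpha_a n (i + 1) (by omega) (by omega),
      alpha_a n i (by omega) (by omega)]
    have e1 : n - 1 + 1 - i = n - i := by omega
    have e2 : n - i + 1 = n + 1 - i := by omega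
    have e3 : n + 1 - (i + 1) = n - i := by omega
    rw [e1, e2, e3]
    ring

/-- **Complement symmetry.** For all `n ≥ 2`, `1 ≤ k ≤ n-1`: the field `ℂ(ℏ, a_1, …, a_n)` has
an automorphism `α` with `α ℏ = ℏ` and `α a_i = -a_{n+1-i}`, and for it
`V(lam) = α (V(lam^c))` holds for every partition `lam` in the rectangle. -/
theorem result (n k : ℕ) (hn : 2 ≤ n) (_hk1 : 1 ≤ k) (hk2 : k ≤ n - 1) :
    ∃ α : K n ≃ₐ[ℂ] K n,
      (α (hbar n) = hbar n ∧ ∀ i, 1 ≤ i → i ≤ n → α (a n i) = - a n (n + 1 - i)) ∧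
      ∀ μ : Finset (ℕ × ℕ), IsDiagram n k μ →
        pathSum n k μ = α (pathSum n k (compl n k μ)) := by
  classical
  have hk : k ≤ n := by omega
  refine ⟨alpha n, ⟨alpha_hbar n, alpha_a n⟩, ?_⟩
  intro μ hμ
  unfold pathSum
  rw [map_sum]
  apply Finset.sum_bij' (fun S _ => rotListing S) (fun S _ => rotListing S)
  · intro S hS
    rw [mem_filter] at hS ⊢
    exact ⟨mem_univ _, isPath_rot hS.2⟩
  · intro S hS
    rw [mem_filter] at hS ⊢
    refine ⟨mem_univ _, ?_⟩
    have := isPath_rot hS.2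
    rwa [compl_compl hμ.1] at this
  · intro S _
    exact rotListing_rotListing S
  · intro S _
    exact rotListing_rotListing S
  · intro S _
    rw [map_prod]
    apply Finset.prod_congr rfl
    intro j _
    rw [map_div₀, map_one, alpha_weight hn hk]

end Pool.Agent.Results.MP_5ac669_co.ComplementSymmetry
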